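import Pool.Agent.Q214.FG.Djs
import Pool.Agent.Q223.FT.CLE

/-!
# Project FG (helper283), job CLE (helper214): a totally singular subspace has at most `4 ^ f` elements, with the sign
-/

set_option autoImplicit false

namespace Pool.Agent.Q214.FG

open Finset Module
open Pool.Agent.Q283.FG
open Pool.Agent.Q283.FT (U2 om)
open Pool.Agent.Q283.FT.D (pol pol_apply pol_nondeg pol_symm)
open Pool.Agent.Q223.FT (omS omS_apply omS_self omS_nd om_self om_nd)

/-- the polar form with the sign -/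
noncomputable def polS (f : ℕ) (t₀ : Fin f) : LinearMap.BilinForm (ZMod 2) ((Fin f → U2) × (Fin f → U2)) :=
  pol (omS f) + om.compl₁₂ ((LinearMap.proj t₀).comp (LinearMap.snd (ZMod 2) (Fin f → U2) (Fin f → U2)))
    ((LinearMap.proj t₀).comp (LinearMap.snd (ZMod 2) (Fin f → U2) (Fin f → U2)))

lemma polS_apply {f : ℕ} (t₀ : Fin f) (x y : (Fin f → U2) × (Fin f → U2)) :
    polS f t₀ x y = omS f x.2 y.1 + omS f y.2 x.1 + om (x.2 t₀) (y.2 t₀) := rfl

lemma om_symm (x y : U2) : om x y = om y x := by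
  rw [om_apply, om_apply]
  ring

lemma polS_symm {f : ℕ} (t₀ : Fin f) (x y : (Fin f → U2) × (Fin f → U2)) :
    polS f t₀ x y = polS f t₀ y x := by
  rw [polS_apply, polS_apply, om_symm (x.2 t₀)]
  ring

lemma polS_nd {f : ℕ} (t₀ : Fin f) (x : (Fin f → U2) × (Fin f → U2)) (hx : ∀ y, polS f t₀ x y = 0) : x = 0 := by
  have h1 : x.2 = 0 := omS_nd _ fun v => by
    have h := hx (v, 0)
    rw [polS_apply] at h
    simpa using h
  have h2 : x.1 = 0 := omS_nd _ fun v => by
    have h := hx (0, v)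
    rw [polS_apply, h1] at h
    simp only [map_zero, LinearMap.zero_apply, zero_add, Pi.zero_apply, add_zero] at h
    have h3 : omS f x.1 v = omS f v x.1 := by
      rw [omS_apply, omS_apply]
      exact sum_congr rfl fun t _ => om_symm _ _
    rw [h3]
    exact h
  exact Prod.ext h2 h1

/-- the quadratic form of the operators is additive up to the sign -/
lemma quad_addS {f : ℕ} (t₀ : Fin f) (c : Fin 3 → Fin f → ZMod 2) (w φ : Fin f → ZMod 2) (x y : U2) :
    om (x + y) (opS t₀ c w φ (x + y)) = om x (opS t₀ c w φ x) + om y (opS t₀ c w φ y) + φ t₀ * om x y := by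
  simp only [map_add, LinearMap.add_apply]
  have h1 := adjS t₀ c w φ x y
  rw [om_symm (opS t₀ c w φ x) y] at h1
  rw [h1]
  have h : ∀ a b d s : ZMod 2, a + (b + s) + (b + d) = a + d + s := by decide
  rw [show om x (opS t₀ c w φ x) + (om x (opS t₀ c w φ y) + φ t₀ * om x y) +
    (om x (opS t₀ c w φ y) + om y (opS t₀ c w φ y)) = om x (opS t₀ c w φ x) + om y (opS t₀ c w φ y) + φ t₀ * om x y
    from h _ _ _ _]

lemma q_addS {f : ℕ} (t₀ : Fin f) (c : Fin 3 → Fin f → ZMod 2) (w : Fin f → ZMod 2)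
    (𝓛 : Submodule (ZMod 2) ((Fin f → U2) × (Fin f → U2))) (x y : (Fin f → U2) × (Fin f → U2)) :
    (djS t₀ c w 𝓛).q (x + y) =
      (djS t₀ c w 𝓛).q x + (djS t₀ c w 𝓛).q y + polS f t₀ x y := by
  have hq : ∀ z : (Fin f → U2) × (Fin f → U2), (djS t₀ c w 𝓛).q z = omS f z.2 z.1 +
      ∑ t, om (z.2 t) (opS t₀ c w (@Pi.single (Fin f) (fun _ => ZMod 2) (fun _ => inferInstance)
        (fun a b => Classical.propDecidable (a = b)) t 1) (z.2 t)) := fun z => rfl
  rw [hq, hq, hq, polS_apply]
  have h1 : ∑ t, om ((x + y).2 t) (opS t₀ c w (@Pi.single (Fin f) (fun _ => ZMod 2) (fun _ => inferInstance)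
        (fun a b => Classical.propDecidable (a = b)) t 1) ((x + y).2 t)) =
      ∑ t, om (x.2 t) (opS t₀ c w (@Pi.single (Fin f) (fun _ => ZMod 2) (fun _ => inferInstance)
        (fun a b => Classical.propDecidable (a = b)) t 1) (x.2 t)) +
      ∑ t, om (y.2 t) (opS t₀ c w (@Pi.single (Fin f) (fun _ => ZMod 2) (fun _ => inferInstance)
        (fun a b => Classical.propDecidable (a = b)) t 1) (y.2 t)) + om (x.2 t₀) (y.2 t₀) := by
    rw [← @sum_single f (fun a b => Classical.propDecidable (a = b)) t₀ (fun t => om (x.2 t) (y.2 t)),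
      ← sum_add_distrib, ← sum_add_distrib]
    refine sum_congr rfl fun t _ => ?_
    rw [Prod.snd_add, Pi.add_apply]
    exact quad_addS t₀ c w _ _ _
  rw [h1, Prod.snd_add, Prod.fst_add]
  simp only [map_add, LinearMap.add_apply]
  ring

/-- JOB CLE -/
theorem cle : S_CLE := by
  intro f t₀ c w 𝓛 h
  have hnd : (polS f t₀).Nondegenerate := by
    constructor
    · intro x hx
      exact polS_nd t₀ x hx
    · intro y hy
      exact polS_nd t₀ y fun z => by
        rw [polS_symm]
        exact hy z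
  have h1 : 𝓛 ≤ (polS f t₀).orthogonal 𝓛 := by
    intro y hy
    rw [LinearMap.BilinForm.mem_orthogonal_iff]
    intro z hz
    have h2 := q_addS t₀ c w 𝓛 z y
    rw [h _ hz, h _ hy, h _ (𝓛.add_mem hz hy), zero_add, zero_add] at h2
    exact h2.symm
  have h2 := LinearMap.BilinForm.finrank_orthogonal hnd 𝓛
  have h3 := Submodule.finrank_mono h1
  have h4 : finrank (ZMod 2) ((Fin f → U2) × (Fin f → U2)) = 4 * f := by
    rw [Module.finrank_prod, Module.finrank_pi_fintype]
    simp only [Module.finrank_prod, Module.finrank_self, sum_const, card_univ, Fintype.card_fin,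
      smul_eq_mul]
    ring
  rw [h4] at h2
  have h5 : finrank (ZMod 2) 𝓛 ≤ 2 * f := by omega
  have h6 := Module.natCard_eq_pow_finrank (K := ZMod 2) (V := 𝓛)
  rw [h6, Nat.card_zmod]
  calc 2 ^ finrank (ZMod 2) 𝓛 ≤ 2 ^ (2 * f) := Nat.pow_le_pow_right (by norm_num) h5
    _ = 4 ^ f := by rw [pow_mul]; norm_num

end Pool.Agent.Q214.FG
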