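import Pool.Agent.Q283.FG.Stm2

/-!
# Project FG (helper283), job DJS (helper214): linear algebra in dimension two, with the sign
-/

set_option autoImplicit false

namespace Pool.Agent.Q214.FG

open Finset Pool.Agent.Q283.FG
open Pool.Agent.Q283.FT (U2 om)
open Pool.Agent.Q7.LK (dot)

lemma om_apply (x y : U2) : om x y = x.1 * y.2 + x.2 * y.1 := rfl

lemma opS_apply {f : ℕ} (t₀ : Fin f) (c : Fin 3 → Fin f → ZMod 2) (w φ : Fin f → ZMod 2) (x : U2) :
    opS t₀ c w φ x = (dot φ (c 2) * (x.1 + x.2) + dot φ (c 1) * x.2 + dot φ w * x.1 + φ t₀ * x.1,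
      dot φ (c 2) * (x.1 + x.2) + dot φ (c 0) * x.1 + dot φ w * x.2 + φ t₀ * x.1) := rfl

lemma dot_single {f : ℕ} [inst : DecidableEq (Fin f)] (t : Fin f) (z : Fin f → ZMod 2) :
    dot (@Pi.single (Fin f) (fun _ => ZMod 2) _ inst t 1) z = z t := by
  unfold dot
  rw [Finset.sum_eq_single t]
  · rw [Pi.single_eq_same, one_mul]
  · intro l _ hl
    rw [Pi.single_eq_of_ne hl, zero_mul]
  · intro h
    exact absurd (Finset.mem_univ _) h

lemma sum_single {f : ℕ} [inst : DecidableEq (Fin f)] (t₀ : Fin f) (g : Fin f → ZMod 2) :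
    ∑ t, (@Pi.single (Fin f) (fun _ => ZMod 2) _ inst t 1 : Fin f → ZMod 2) t₀ * g t = g t₀ := by
  rw [Finset.sum_eq_single t₀]
  · rw [Pi.single_eq_same, one_mul]
  · intro l _ hl
    rw [Pi.single_eq_of_ne hl.symm, zero_mul]
  · intro h
    exact absurd (Finset.mem_univ _) h

lemma key (a b A B C W s : ZMod 2) :
    a * (A * (a + b) + C * a + W * b + s * a) + b * (A * (a + b) + B * b + W * a + s * a) =
    a * (C + A) + b * (B + A) + s * (a + a * b) := by
  revert a b A B C W s
  decide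

lemma two_eq : (2 : ZMod 2) = 0 := rfl

lemma adjS {f : ℕ} (t₀ : Fin f) (c : Fin 3 → Fin f → ZMod 2) (w φ : Fin f → ZMod 2) (x y : U2) :
    om (opS t₀ c w φ x) y = om x (opS t₀ c w φ y) + φ t₀ * om x y := by
  rw [om_apply, om_apply, om_apply, opS_apply, opS_apply]
  linear_combination (-(φ t₀ * x.2 * y.1)) * two_eq

/-- **DJS** -/
theorem djs : S_DJS := by
  intro f t₀ c w 𝓛
  refine ⟨⟨fun x => ?_, fun φ x y => ?_⟩, fun x h => ?_, fun y => ?_⟩
  · show om x x = 0
    rw [om_apply]
    generalize x.1 = a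
    generalize x.2 = b
    revert a b
    decide
  · exact adjS t₀ c w φ x y
  · have h1 : om x (0, 1) = 0 := h (0, 1)
    have h2 : om x (1, 0) = 0 := h (1, 0)
    rw [om_apply] at h1 h2
    simp only [mul_one, mul_zero, add_zero, zero_add] at h1 h2
    exact Prod.ext h1 h2
  · have e0 : (djS t₀ c w 𝓛).q y = (∑ t, om (y.2 t) (y.1 t)) +
        ∑ t, om (y.2 t) (opS t₀ c w (@Pi.single (Fin f) (fun _ => ZMod 2) _
          (fun a b => Classical.propDecidable (a = b)) t 1) (y.2 t)) := by
      unfold Q44.JQ.Dj.q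
      rfl
    have e1 : ∀ t, om (y.2 t) (opS t₀ c w (@Pi.single (Fin f) (fun _ => ZMod 2) _
          (fun a b => Classical.propDecidable (a = b)) t 1) (y.2 t)) =
        (y.2 t).1 * (c 0 + c 2) t + (y.2 t).2 * (c 1 + c 2) t +
          (@Pi.single (Fin f) (fun _ => ZMod 2) _ (fun a b => Classical.propDecidable (a = b)) t 1 :
            Fin f → ZMod 2) t₀ * ((y.2 t).1 + (y.2 t).1 * (y.2 t).2) := by
      intro t
      have hz : ∀ z : Fin f → ZMod 2, dot (@Pi.single (Fin f) (fun _ => ZMod 2) _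
          (fun a b => Classical.propDecidable (a = b)) t 1) z = z t :=
        fun z => @dot_single f (fun a b => Classical.propDecidable (a = b)) t z
      rw [opS_apply, om_apply]
      simp only [hz, Pi.add_apply]
      rw [key]
    rw [e0]
    simp only [e1, Finset.sum_add_distrib]
    rw [@sum_single f (fun a b => Classical.propDecidable (a = b)) t₀
      (fun t => (y.2 t).1 + (y.2 t).1 * (y.2 t).2)]
    simp only [om_apply, Finset.sum_add_distrib]
    unfold dot
    simp only [Pi.add_apply]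
    ring

end Pool.Agent.Q214.FG
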