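import Pool.Agent.Q283.FG.Stm3
import Pool.Agent.Q124.FT.GDU

/-!
# Project FG (helper283), job GDU (helper214): good places, even order

Adapted from `Pool/Agent/Q124/FT/GDU.lean` (helper124); the class of the point `(e 1, 0)` has a sign now.
-/

set_option autoImplicit false

namespace Pool.Agent.Q214.FG

open NumberField IsDedekindDomain WeierstrassCurve
open Pool.Agent.Q7.LK Pool.Agent.Q283.EN Pool.Agent.Y682 Pool.Agent.Q285.LK
open Pool.Agent.Q283.FT (U2 om crv Rt twi df Cov HasN2 AX Gd LocP Dcl Ks)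
open Pool.Agent.Q285.CE (max_twice)
open Pool.Agent.Q193.EN (lg lg_mul lg_pow lg_neg lg_coe vl_iff)
open Pool.Agent.TH841.SH.D (Pt act)
open Pool.Agent.TH841.SH (IsR)
open Pool.Agent.Q124.FT

/-- JOB GDU -/
theorem gdu (hAXP : Pool.Agent.Q283.FG.S_AXP) (hLCP : Pool.Agent.Q283.FG.S_LCP) (hIDE : Pool.Agent.Q283.FG.S_IDE)
    (hBAS : Pool.Agent.Q7.LK.S_BAS) (_hCPL : Pool.Agent.Q7.LK.S_CPL) : Pool.Agent.Q283.FG.S_GDU := by
  intro F _ _ v e he hg D a b hD ha hb hvD
  have : Fact (Nat.Prime 2) := ⟨Nat.prime_two⟩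
  have hζ : IsPrimitiveRoot (-1 : F) 2 := IsPrimitiveRoot.neg_one 0 (by norm_num)
  obtain ⟨b1, b2, b3, b4, b5, b6, b7⟩ := hBAS 2 F v
  obtain ⟨-, b8, b9, b10⟩ := b7 hg.odd (-1) hζ
  obtain ⟨m, hm⟩ := (vl_iff D).1 hvD
  have het := twi_rt he hD
  have hR := isR het (v.adicCompletion F)
  set A := algebraMap F (v.adicCompletion F) (twi D e 0) with hA
  set B := algebraMap F (v.adicCompletion F) (twi D e 1) with hB
  set C := algebraMap F (v.adicCompletion F) (twi D e 2) with hC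
  -- the orders of the differences
  have hlg : ∀ l, lg v (algebraMap F (v.adicCompletion F) (df (twi D e) l)) = 2 * m := by
    intro l
    rw [lg_coe, twi_df, map_mul, hg.unit l, mul_one, hm]
  have hdn : ∀ l, algebraMap F (v.adicCompletion F) (df (twi D e) l) ≠ 0 := fun l =>
    (map_ne_zero _).2 (df_ne het l)
  have d0 : algebraMap F (v.adicCompletion F) (df (twi D e) 0) = B - C := by
    rw [hB, hC, ← map_sub]; rfl
  have d1 : algebraMap F (v.adicCompletion F) (df (twi D e) 1) = A - C := by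
    rw [hA, hC, ← map_sub]; rfl
  have d2 : algebraMap F (v.adicCompletion F) (df (twi D e) 2) = A - B := by
    rw [hA, hB, ← map_sub]; rfl
  have lBC : lg v (B - C) = 2 * m := by rw [← d0]; exact hlg 0
  have lAC : lg v (A - C) = 2 * m := by rw [← d1]; exact hlg 1
  have lAB : lg v (A - B) = 2 * m := by rw [← d2]; exact hlg 2
  have nBC : B - C ≠ 0 := by rw [← d0]; exact hdn 0
  have nAC : A - C ≠ 0 := by rw [← d1]; exact hdn 1
  have nAB : A - B ≠ 0 := by rw [← d2]; exact hdn 2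
  have hdd : ∀ l l', ∃ k, lg v (algebraMap F (v.adicCompletion F) (df (twi D e) l * df (twi D e) l')) = 2 * k := by
    intro l l'
    rw [map_mul, lg_mul v (hdn l) (hdn l'), hlg, hlg]
    exact ⟨2 * m, by ring⟩
  have hddn : ∀ l l', algebraMap F (v.adicCompletion F) (df (twi D e) l * df (twi D e) l') ≠ 0 := by
    intro l l'
    rw [map_mul]
    exact mul_ne_zero (hdn l) (hdn l')
  -- from points to even orders
  have fwd : ∀ a b : F, AX v (twi D e) a b → vl 2 v a = 0 ∧ vl 2 v b = 0 := by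
    intro a b hab
    obtain ⟨ha, hb, hcov⟩ := hab
    obtain ⟨P, ha', hb', hP⟩ := (hAXP F (twi D e) het (v.adicCompletion F) a b ha hb).1 hcov
    rw [vl_iff, vl_iff, ← lg_coe, ← lg_coe]
    rcases hP with ⟨-, h1, h2⟩ | ⟨x, y, h, -, h1, h2⟩
    · exact ⟨lg_sq ha' h1, lg_sq hb' h2⟩
    · have heq := (hR.eqn x y).1 h.1
      by_cases hxA : x = A
      · refine ⟨?_, ?_⟩
        · rcases h1 with ⟨h1, -⟩ | ⟨-, h1⟩
          · exact absurd hxA h1
          · exact lg_mul_sq ha' (hddn 1 2) h1 (hdd 1 2)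
        · rcases h2 with ⟨-, h2⟩ | ⟨h2, -⟩
          · rw [hxA] at h2
            exact lg_mul_sq hb' nAB h2 ⟨m, lAB⟩
          · exact absurd (hxA.symm.trans h2) (sub_ne_zero.1 nAB)
      · by_cases hxB : x = B
        · refine ⟨?_, ?_⟩
          · rcases h1 with ⟨-, h1⟩ | ⟨h1, -⟩
            · rw [hxB, ← neg_sub A B] at h1
              exact lg_mul_sq ha' (neg_ne_zero.2 nAB) h1 ⟨m, by rw [lg_neg]; exact lAB⟩
            · exact absurd h1 hxA
          · rcases h2 with ⟨h2, -⟩ | ⟨-, h2⟩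
            · exact absurd hxB h2
            · exact lg_mul_sq hb' (by rw [map_neg]; exact neg_ne_zero.2 (hddn 0 2)) h2
                (by rw [map_neg, lg_neg]; exact hdd 0 2)
        · have h1' : IsSquare (algebraMap F (v.adicCompletion F) a * (x - A)) := by
            rcases h1 with ⟨-, h1⟩ | ⟨h1, -⟩
            · exact h1
            · exact absurd h1 hxA
          have h2' : IsSquare (algebraMap F (v.adicCompletion F) b * (x - B)) := by
            rcases h2 with ⟨-, h2⟩ | ⟨h2, -⟩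
            · exact h2
            · exact absurd h2 hxB
          by_cases hxC : x = C
          · rw [hxC, ← neg_sub A C] at h1'
            rw [hxC, ← neg_sub B C] at h2'
            exact ⟨lg_mul_sq ha' (neg_ne_zero.2 nAC) h1' ⟨m, by rw [lg_neg]; exact lAC⟩,
              lg_mul_sq hb' (neg_ne_zero.2 nBC) h2' ⟨m, by rw [lg_neg]; exact lBC⟩⟩
          · obtain ⟨e1, e2, -⟩ := ev3 rfl (sub_ne_zero.2 hxA) (sub_ne_zero.2 hxB) (sub_ne_zero.2 hxC)
              nAB nAC nBC lAB lAC lBC heq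
            exact ⟨lg_mul_sq ha' (sub_ne_zero.2 hxA) h1' e1, lg_mul_sq hb' (sub_ne_zero.2 hxB) h2' e2⟩
  refine ⟨fwd a b, fun ⟨hva, hvb⟩ => ?_⟩
  obtain ⟨S, hS1, hS2, hS3⟩ := hIDE F v (twi D e) het
  have hdv : dv 2 v = 0 := by
    unfold dv
    rw [if_neg hg.odd]
  rw [hdv] at hS1
  have hS4 : 4 ≤ S.card := le_trans (by norm_num) hS1
  have hL1 : Lpw 2 v (1 : F) := by
    have := b3 1 one_ne_zero
    rwa [one_pow] at this
  have hv1 : vl 2 v (1 : F) = 0 := (b1 1 hL1).2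
  -- quotients
  have hinv : ∀ c : F, c ≠ 0 → vl 2 v c = 0 → vl 2 v c⁻¹ = 0 ∧ sy 2 (-1) v c⁻¹ = - sy 2 (-1) v c := by
    intro c hc hc0
    have h1 : vl 2 v (c * c⁻¹) = vl 2 v c + vl 2 v c⁻¹ := b5 c c⁻¹ hc (inv_ne_zero hc)
    rw [mul_inv_cancel₀ hc] at h1
    have h3 : vl 2 v c⁻¹ = 0 := by
      rw [hv1, hc0, zero_add] at h1
      exact h1.symm
    refine ⟨h3, ?_⟩
    have h4 := b9 c c⁻¹ hc (inv_ne_zero hc) hc0 h3
    rw [mul_inv_cancel₀ hc, (b10 1 one_ne_zero hv1).2 hL1] at h4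
    linear_combination -h4
  have hdiv : ∀ c c' : F, c ≠ 0 → c' ≠ 0 → vl 2 v c = 0 → vl 2 v c' = 0 →
      sy 2 (-1) v c = sy 2 (-1) v c' → Lpw 2 v (c / c') := by
    intro c c' hc hc' h1 h2 h3
    obtain ⟨h4, h5⟩ := hinv c' hc' h2
    rw [div_eq_mul_inv]
    refine (b10 _ (mul_ne_zero hc (inv_ne_zero hc')) ?_).1 ?_
    · rw [b5 c c'⁻¹ hc (inv_ne_zero hc'), h1, h4, add_zero]
    · rw [b9 c c'⁻¹ hc (inv_ne_zero hc') h1 h4, h5, h3, add_neg_cancel]
  let φ : F × F → ZMod 2 × ZMod 2 := fun c => (sy 2 (-1) v c.1, sy 2 (-1) v c.2)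
  have hinj : Set.InjOn φ (S : Set (F × F)) := by
    intro c hc c' hc' h
    by_contra hne
    have h1 := hS2 c hc
    have h2 := hS2 c' hc'
    have h3 := fwd _ _ h1
    have h4 := fwd _ _ h2
    have h5 := congrArg Prod.fst h
    have h6 := congrArg Prod.snd h
    exact hS3 c hc c' hc' hne ⟨hdiv _ _ h1.1 h2.1 h3.1 h4.1 h5, hdiv _ _ h1.2.1 h2.2.1 h3.2 h4.2 h6⟩
  classical
  have himg : S.image φ = Finset.univ := by
    apply Finset.eq_univ_of_card
    apply le_antisymm (Finset.card_le_univ _)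
    rw [Finset.card_image_of_injOn hinj]
    have : Fintype.card (ZMod 2 × ZMod 2) = 4 := by
      rw [Fintype.card_prod, ZMod.card]
    rw [this]
    exact hS4
  have hmem : φ (a, b) ∈ S.image φ := by
    rw [himg]
    exact Finset.mem_univ _
  obtain ⟨c, hc, hcφ⟩ := Finset.mem_image.1 hmem
  have h1 := hS2 c hc
  have h2 := fwd _ _ h1
  have h3 : sy 2 (-1) v a = sy 2 (-1) v c.1 := (congrArg Prod.fst hcφ).symm
  have h4 : sy 2 (-1) v b = sy 2 (-1) v c.2 := (congrArg Prod.snd hcφ).symm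
  have h5 := (hLCP F (twi D e) het v).2.1 c.1 c.2 (a / c.1) (b / c.2)
    (hdiv a c.1 ha h1.1 hva h2.1 h3) (hdiv b c.2 hb h1.2.1 hvb h2.2 h4) h1
  rwa [mul_div_cancel₀ a h1.1, mul_div_cancel₀ b h1.2.1] at h5

end Pool.Agent.Q214.FG
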